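import Pool.Agent.N176.OW.Stm2

/-! Task OW/TU (helper99): sieve bound for a set of exponents and fixed last digits. -/

set_option autoImplicit false

namespace Pool.Agent.N99.OW

open Finset
open Pool.Agent.H305R2 (roughPart roughPart_prime)
open Pool.Agent.N176.OW

/-- the class modulo `l` -/
def cc (a s r l : ℕ) : ℕ := (1 - (s : ZMod l) - (r : ZMod l) * (a : ZMod l)⁻¹).val

lemma cc_lt {a s r l : ℕ} (hl : 0 < l) : cc a s r l < l := by
  have : NeZero l := ⟨hl.ne'⟩
  exact ZMod.val_lt _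

lemma cc_iff {a s r l n : ℕ} (hl : 0 < l) (ha : Nat.Coprime a l) (hn : 1 ≤ n) :
    l ∣ a * (n + s - 1) + r ↔ n % l = cc a s r l := by
  have : NeZero l := ⟨hl.ne'⟩
  have h1 := ZMod.coe_mul_inv_eq_one a ha
  have h2 : ((n + s - 1 : ℕ) : ZMod l) = (n : ZMod l) + s - 1 := by
    rw [eq_sub_iff_add_eq]
    have : n + s - 1 + 1 = n + s := by omega
    exact_mod_cast congrArg (Nat.cast : ℕ → ZMod l) this
  rw [← ZMod.natCast_eq_zero_iff, Nat.cast_add, Nat.cast_mul, h2]
  unfold cc
  rw [← ZMod.val_natCast]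
  constructor
  · intro h
    have h3 : (n : ZMod l) = 1 - s - r * (a : ZMod l)⁻¹ := by
      linear_combination (a : ZMod l)⁻¹ * h - ((n : ZMod l) + s - 1) * h1
    rw [h3]
  · intro h
    have h3 : (n : ZMod l) = 1 - s - r * (a : ZMod l)⁻¹ := ZMod.val_injective l h
    rw [h3]
    linear_combination (-(r : ZMod l)) * h1

lemma card_image_ge (F : Finset ℕ) (f : ℕ → ℕ) : F.card ≤ (F.image f).card +
    (F.filter (fun q => ∃ p ∈ F, p < q ∧ f p = f q)).card := by
  classical
  have h1 : (F.filter (fun q => ¬ ∃ p ∈ F, p < q ∧ f p = f q)).card ≤ (F.image f).card := by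
    apply Finset.card_le_card_of_injOn f
    · intro q hq
      rw [mem_coe, mem_filter] at hq
      exact mem_coe.2 (mem_image_of_mem _ hq.1)
    · intro q hq q' hq' h
      rw [mem_coe, mem_filter] at hq hq'
      rcases lt_trichotomy q q' with h1 | h1 | h1
      · exact absurd ⟨q, hq.1, h1, h⟩ hq'.2
      · exact h1
      · exact absurd ⟨q', hq'.1, h1, h.symm⟩ hq.2
  have h2 := Finset.card_filter_add_card_filter_not (s := F) (fun q => ∃ p ∈ F, p < q ∧ f p = f q)
  omega

/-- the prime factors `> y` of a number -/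
lemma sum_primes {y N D : ℕ} {X : ℝ} (hy : 2 ≤ y) (hD : 0 < D) (hX : Real.log D ≤ X) :
    ∑ l ∈ ((Ioc y N).filter Nat.Prime).filter (fun l => l ∣ D), 1 / (l : ℝ) ≤
      X / (Real.log y * y) := by
  obtain ⟨S, hS⟩ : ∃ S, S = ((Ioc y N).filter Nat.Prime).filter (fun l => l ∣ D) := ⟨_, rfl⟩
  rw [← hS]
  have hmem : ∀ l ∈ S, y < l ∧ l.Prime ∧ l ∣ D := by
    intro l hl
    rw [hS, mem_filter, mem_filter, mem_Ioc] at hl
    exact ⟨hl.1.1.1, hl.1.2, hl.2⟩
  have hyR : (2 : ℝ) ≤ y := by exact_mod_cast hy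
  have hly : 0 < Real.log y := Real.log_pos (by linarith)
  have h1 : ∏ l ∈ S, l ∣ D := Finset.prod_primes_dvd D (fun l hl => (hmem l hl).2.1.prime)
    fun l hl => (hmem l hl).2.2
  have h2 : y ^ S.card ≤ D := by
    refine le_trans ?_ (Nat.le_of_dvd hD h1)
    rw [← Finset.prod_const]
    exact Finset.prod_le_prod' fun l hl => (hmem l hl).1.le
  have h3 : S.card * Real.log y ≤ X := by
    refine le_trans ?_ hX
    rw [← Real.log_pow]
    exact Real.log_le_log (by positivity) (by exact_mod_cast h2)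
  calc ∑ l ∈ S, 1 / (l : ℝ) ≤ ∑ _l ∈ S, 1 / (y : ℝ) := by
        refine Finset.sum_le_sum fun l hl => ?_
        exact one_div_le_one_div_of_le (by linarith) (by exact_mod_cast (hmem l hl).1.le)
    _ = S.card * (1 / (y : ℝ)) := by rw [Finset.sum_const, nsmul_eq_mul]
    _ ≤ X / (Real.log y * y) := by
        rw [le_div_iff₀ (by positivity)]
        have : (S.card : ℝ) * (1 / (y : ℝ)) * (Real.log y * y) = S.card * Real.log y := by
          field_simp
        rw [this]
        exact h3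

/-- the digits -/
lemma Lp {b t p1 p m r : ℕ} (h1 : p1 ≤ p) (h2 : p ≤ t) (hb : 0 < b) :
    (b ^ (t - p1) * m + r) / b ^ (t - p) = b ^ (p - p1) * m + r / b ^ (t - p) := by
  have e : b ^ (t - p1) = b ^ (t - p) * b ^ (p - p1) := by
    rw [← pow_add]
    congr 1
    omega
  rw [e, mul_assoc, Nat.mul_add_div (by positivity)]

lemma rq {b t p q r : ℕ} (h1 : p ≤ q) (h2 : q ≤ t) :
    r / b ^ (t - q) = b ^ (q - p) * (r / b ^ (t - p)) + (r / b ^ (t - q)) % b ^ (q - p) := by
  have e : b ^ (t - p) = b ^ (t - q) * b ^ (q - p) := by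
    rw [← pow_add]
    congr 1
    omega
  rw [e, ← Nat.div_div_eq_div_mul]
  exact (Nat.div_add_mod _ _).symm

/-- coincidence of classes -/
lemma coinc {b t p1 p q r s l : ℕ} (h0 : p1 ≤ p) (h1 : p ≤ q) (h2 : q ≤ t) (hl : 0 < l)
    (hbl : Nat.Coprime b l)
    (h : cc (b ^ (p - p1)) s (r / b ^ (t - p)) l = cc (b ^ (q - p1)) s (r / b ^ (t - q)) l) :
    l ∣ (r / b ^ (t - q)) % b ^ (q - p) := by
  obtain ⟨n, hn⟩ : ∃ n, n = cc (b ^ (p - p1)) s (r / b ^ (t - p)) l + l := ⟨_, rfl⟩
  have hlt := cc_lt (a := b ^ (p - p1)) (s := s) (r := r / b ^ (t - p)) hl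
  have hn1 : n % l = cc (b ^ (p - p1)) s (r / b ^ (t - p)) l := by
    rw [hn, Nat.add_mod_right, Nat.mod_eq_of_lt hlt]
  have hn0 : 1 ≤ n := by omega
  have d1 := (cc_iff hl (Nat.Coprime.pow_left (p - p1) hbl) hn0).2 hn1
  have d2 := (cc_iff hl (Nat.Coprime.pow_left (q - p1) hbl) hn0).2 (hn1.trans h)
  have e1 : b ^ (q - p1) * (n + s - 1) + r / b ^ (t - q) =
      b ^ (q - p) * (b ^ (p - p1) * (n + s - 1) + r / b ^ (t - p)) +
        (r / b ^ (t - q)) % b ^ (q - p) := by
    have e2 : b ^ (q - p1) = b ^ (q - p) * b ^ (p - p1) := by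
      rw [← pow_add]
      congr 1
      omega
    conv_lhs => rw [rq h1 h2, e2]
    ring
  rw [e1] at d2
  exact (Nat.dvd_add_right (d1.mul_left _)).1 d2

/-- a prime factor of a number with prime rough part and small smooth part is large -/
lemma large {p l M : ℕ} {B : ℝ} (h : (roughPart p M).Prime)
    (hB : ((M / roughPart p M : ℕ) : ℝ) < B) (hl : l.Prime) (hpl : p < l) (hlM : l ∣ M) :
    (M : ℝ) < B * l := by
  obtain ⟨hq, s, hs, he⟩ := roughPart_prime h
  obtain ⟨q, hqd⟩ : ∃ q, q = roughPart p M := ⟨_, rfl⟩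
  rw [← hqd] at h hB hq he
  have hlq : l = q := by
    rw [he] at hlM
    rcases (Nat.Prime.dvd_mul hl).1 hlM with h1 | h1
    · exfalso
      have := (Nat.mem_smoothNumbers'.1 hs) l hl h1
      omega
    · exact (Nat.prime_dvd_prime_iff_eq hl h).1 h1
  have h2 : M / q = s := by
    conv_lhs => rw [he]
    exact Nat.mul_div_cancel _ h.pos
  rw [h2] at hB
  have h3 : (0 : ℝ) < q := by exact_mod_cast h.pos
  rw [hlq]
  conv_lhs => rw [he]
  push_cast
  exact mul_lt_mul_of_pos_right hB h3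

/-- the conclusion of SV -/
def SVc (C : ℝ) : Prop := ∀ (k N y : ℕ) (E : ℝ) (I : ℕ → Finset ℕ) (A : Finset ℕ),
  1 ≤ k → 2 ≤ y → k ^ 2 ≤ y → C * k * Real.log y ≤ Real.log N → A ⊆ Icc 1 N →
  (∀ l : ℕ, l.Prime → y < l → I l ⊆ range l ∧ (I l).card ≤ k) →
  (∀ n ∈ A, ∀ l : ℕ, l.Prime → y < l → C * k * Real.log l ≤ Real.log N → n % l ∉ I l) →
  ∑ l ∈ (Ioc y N).filter Nat.Prime, ((k : ℝ) - (I l).card) / l ≤ E →
  (A.card : ℝ) ≤ C ^ k * Real.exp E * (k * Real.log y / Real.log N) ^ k * N

/-- the good integers -/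
def Gd (F : Finset ℕ) (b t p1 x r m : ℕ) : Prop := ∀ p ∈ F,
    (roughPart p ((b ^ (t - p1) * m + r) / b ^ (t - p))).Prime ∧
    (((b ^ (t - p1) * m + r) / b ^ (t - p) /
      roughPart p ((b ^ (t - p1) * m + r) / b ^ (t - p)) : ℕ) : ℝ) <
      Real.exp (x * Real.log b / 8)

open Classical in
/-- the bound for a short interval -/
lemma sub {b : ℕ} (hb : 2 ≤ b) {C : ℝ} (hC : 1 ≤ C) (hSV : SVc C) {x : ℕ} (hxb : b + 16 ≤ x)
    (hxl : 2 * C * Real.log x ^ 2 ≤ x * Real.log b / 16) {F : Finset ℕ}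
    (hF : ∀ p ∈ F, x < p ∧ p ≤ 2 * x) (hk : (F.card : ℝ) ^ 2 ≤ Real.log x) {p1 : ℕ} (hp1 : p1 ∈ F)
    (hmin : ∀ p ∈ F, p1 ≤ p) {z t r : ℕ} (hz : 64 * z ≤ x) (ht : 2 * x ≤ t)
    (hnd : ∀ p ∈ F, ∀ q ∈ F, p < q → ¬ Deg b t p q r) {s : ℕ} (hs : b ^ (p1 - z) ≤ s) :
    (((Ico s (s + b ^ ((p1 - z) / 8))).filter (Gd F b t p1 x r)).card : ℝ) ≤
      (32 * C * b / Real.log b * F.card * (Real.log x / x)) ^ F.card *
        (b : ℝ) ^ ((p1 - z) / 8) := by
  obtain ⟨e, he⟩ : ∃ e, e = (p1 - z) / 8 := ⟨_, rfl⟩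
  rw [← he]
  obtain ⟨k, hkd⟩ : ∃ k, k = F.card := ⟨_, rfl⟩
  rw [← hkd] at hk ⊢
  have hx1 := (hF p1 hp1).1
  have hx2 := (hF p1 hp1).2
  have hk1 : 1 ≤ k := by
    rw [hkd]
    exact Finset.card_pos.2 ⟨p1, hp1⟩
  have hk1R : (1 : ℝ) ≤ k := by exact_mod_cast hk1
  have hxR : (18 : ℝ) ≤ x := by exact_mod_cast (by omega : 18 ≤ x)
  have hbR : (2 : ℝ) ≤ b := by exact_mod_cast hb
  have hlb : 0 < Real.log b := Real.log_pos (by linarith)
  have he16 : x ≤ 16 * e := by omega
  have he8 : 8 * e ≤ p1 - z := by omega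
  have heR : (x : ℝ) ≤ 16 * e := by exact_mod_cast he16
  have hlx : 0 < Real.log x := Real.log_pos (by linarith)
  have hlx1 : 1 ≤ Real.log x := by
    refine le_trans ?_ hk
    nlinarith
  have hkl : (k : ℝ) ≤ Real.log x := by nlinarith
  have hlN : Real.log ((b ^ e : ℕ) : ℝ) = e * Real.log b := by
    push_cast
    rw [Real.log_pow]
  have hlN16 : x * Real.log b / 16 ≤ e * Real.log b := by nlinarith
  have hl2x : Real.log ((2 * x : ℕ) : ℝ) ≤ 2 * Real.log x := by
    push_cast
    rw [two_mul (Real.log (x : ℝ)), ← Real.log_mul (by linarith) (by linarith)]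
    exact Real.log_le_log (by linarith) (by nlinarith)
  have hl2x' : Real.log x ≤ Real.log ((2 * x : ℕ) : ℝ) := by
    push_cast
    exact Real.log_le_log (by linarith) (by linarith)
  have hl2x0 : 0 < Real.log ((2 * x : ℕ) : ℝ) := by linarith
  -- the classes
  obtain ⟨f, hf⟩ : ∃ f : ℕ → ℕ → ℕ, f = fun l p => cc (b ^ (p - p1)) s (r / b ^ (t - p)) l :=
    ⟨_, rfl⟩
  obtain ⟨A, hA⟩ : ∃ A : Finset ℕ, A = ((Ico s (s + b ^ e)).filter (Gd F b t p1 x r)).image
    (fun m => m - s + 1) := ⟨_, rfl⟩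
  have hs1 : 1 ≤ s := le_trans (Nat.one_le_pow _ _ (by omega)) hs
  have hAcard : ((Ico s (s + b ^ e)).filter (Gd F b t p1 x r)).card = A.card := by
    rw [hA, Finset.card_image_of_injOn]
    intro m hm m' hm' h
    rw [mem_coe, mem_filter, mem_Ico] at hm hm'
    simp only at h
    omega
  have hcop : ∀ l : ℕ, l.Prime → 2 * x < l → Nat.Coprime b l := by
    intro l hl hlx
    rw [Nat.coprime_comm, Nat.Prime.coprime_iff_not_dvd hl]
    intro h
    have := Nat.le_of_dvd (by omega) h
    omega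
  have hmain := hSV k (b ^ e) (2 * x) (Real.log b) (fun l => F.image (f l)) A hk1 (by omega)
    (by
      have h1 : (k : ℝ) ^ 2 ≤ 2 * x := by
        have := Real.log_le_sub_one_of_pos (by linarith : (0 : ℝ) < x)
        linarith
      exact_mod_cast h1)
    (by
      rw [hlN]
      calc C * k * Real.log ((2 * x : ℕ) : ℝ) ≤ C * Real.log x * (2 * Real.log x) := by
            gcongr
        _ = 2 * C * Real.log x ^ 2 := by ring
        _ ≤ x * Real.log b / 16 := hxl
        _ ≤ e * Real.log b := hlN16)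
    (by
      intro n hn
      rw [hA, mem_image] at hn
      obtain ⟨m, hm, rfl⟩ := hn
      rw [mem_filter, mem_Ico] at hm
      rw [mem_Icc]
      omega)
    (by
      intro l hl hlx
      refine ⟨fun c hc => ?_, ?_⟩
      · rw [mem_image] at hc
        obtain ⟨p, _, rfl⟩ := hc
        rw [mem_range, hf]
        exact cc_lt hl.pos
      · rw [hkd]
        exact Finset.card_image_le)
    (by
      intro n hn l hl hlx hsmall hmem
      rw [mem_image] at hmem
      obtain ⟨p, hp, hcl⟩ := hmem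
      rw [hA, mem_image] at hn
      obtain ⟨m, hm, rfl⟩ := hn
      rw [mem_filter, mem_Ico] at hm
      have hpF := hF p hp
      have hp1p := hmin p hp
      rw [hf] at hcl
      have hd := (cc_iff hl.pos (Nat.Coprime.pow_left (p - p1) (hcop l hl hlx))
        (by omega : 1 ≤ m - s + 1)).2 hcl.symm
      have e1 : m - s + 1 + s - 1 = m := by omega
      rw [e1, ← Lp hp1p (by omega) (by omega)] at hd
      obtain ⟨g1, g2⟩ := hm.2 p hp
      have h3 := large g1 g2 hl (by omega) hd
      have h4 : (b : ℝ) ^ (p1 - z) ≤ (((b ^ (t - p1) * m + r) / b ^ (t - p) : ℕ) : ℝ) := by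
        rw [Lp hp1p (by omega) (by omega)]
        have : b ^ (p1 - z) ≤ b ^ (p - p1) * m + r / b ^ (t - p) := by
          have h5 : 1 ≤ b ^ (p - p1) := Nat.one_le_pow _ _ (by omega)
          calc b ^ (p1 - z) ≤ m := hs.trans hm.1.1
            _ ≤ b ^ (p - p1) * m := Nat.le_mul_of_pos_left _ h5
            _ ≤ _ := Nat.le_add_right _ _
        exact_mod_cast this
      have h5 := h4.trans_lt h3
      have hlR : (0 : ℝ) < l := by exact_mod_cast hl.pos
      have h6 : ((p1 - z : ℕ) : ℝ) * Real.log b < x * Real.log b / 8 + Real.log l := by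
        have h7 := Real.log_lt_log (by positivity) h5
        rw [Real.log_pow, Real.log_mul (Real.exp_pos _).ne' hlR.ne', Real.log_exp] at h7
        exact h7
      rw [hlN] at hsmall
      have hll : 0 ≤ Real.log l := Real.log_nonneg (by exact_mod_cast hl.one_lt.le)
      have h8 : Real.log l ≤ e * Real.log b := by
        refine le_trans ?_ hsmall
        have : 1 ≤ C * k := by nlinarith
        nlinarith
      have h9 : 8 * (e : ℝ) ≤ ((p1 - z : ℕ) : ℝ) := by exact_mod_cast he8
      have h10 : (63 : ℝ) * x ≤ 64 * ((p1 - z : ℕ) : ℝ) := by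
        have : 63 * x ≤ 64 * (p1 - z) := by omega
        exact_mod_cast this
      have h11 : (e : ℝ) * Real.log b ≤ ((p1 - z : ℕ) : ℝ) * Real.log b / 8 := by nlinarith
      have h12 : 63 / 64 * (x : ℝ) * Real.log b ≤ ((p1 - z : ℕ) : ℝ) * Real.log b := by nlinarith
      have h13 : 0 < (x : ℝ) * Real.log b := by positivity
      linarith)
    (by
      -- the density
      have step : ∀ l ∈ (Ioc (2 * x) (b ^ e)).filter Nat.Prime,
          ((k : ℝ) - ((F.image (f l)).card : ℝ)) / l ≤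
          ∑ q ∈ F, ∑ p ∈ F.filter (fun p => p < q),
            if l ∣ (r / b ^ (t - q)) % b ^ (q - p) then 1 / (l : ℝ) else 0 := by
        intro l hl
        rw [mem_filter, mem_Ioc] at hl
        have lR : (0 : ℝ) < l := by exact_mod_cast hl.2.pos
        have h1 := card_image_ge F (f l)
        rw [← hkd] at h1
        have h2 : ((k : ℝ) - ((F.image (f l)).card : ℝ)) ≤
            ((F.filter (fun q => ∃ p ∈ F, p < q ∧ f l p = f l q)).card : ℝ) := by
          rw [sub_le_iff_le_add']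
          exact_mod_cast h1
        rw [div_le_iff₀ lR]
        refine h2.trans ?_
        rw [Finset.card_eq_sum_ones, Nat.cast_sum, Finset.sum_filter, Finset.sum_mul]
        refine Finset.sum_le_sum fun q hq => ?_
        rw [Finset.sum_mul]
        have hnn : ∀ p ∈ F.filter (fun p => p < q), 0 ≤
            (if l ∣ (r / b ^ (t - q)) % b ^ (q - p) then 1 / (l : ℝ) else 0) * l := by
          intro p _
          split_ifs
          · positivity
          · rw [zero_mul]
        split_ifs with h3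
        · obtain ⟨p, hp, hpq, hfe⟩ := h3
          rw [hf] at hfe
          have hd : l ∣ (r / b ^ (t - q)) % b ^ (q - p) := coinc (hmin p hp) hpq.le
            (by have := (hF q hq).2; omega) hl.2.pos (hcop l hl.2 hl.1.1) hfe
          refine le_trans ?_ (Finset.single_le_sum hnn (mem_filter.2 ⟨hp, hpq⟩))
          rw [if_pos hd]
          rw [Nat.cast_one, one_div, inv_mul_cancel₀ lR.ne']
        · exact Finset.sum_nonneg hnn
      refine (Finset.sum_le_sum step).trans ?_
      rw [Finset.sum_comm]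
      have inner : ∀ q ∈ F, ∑ l ∈ (Ioc (2 * x) (b ^ e)).filter Nat.Prime,
          ∑ p ∈ F.filter (fun p => p < q),
            (if l ∣ (r / b ^ (t - q)) % b ^ (q - p) then 1 / (l : ℝ) else 0) ≤
          k * (x * Real.log b / (Real.log ((2 * x : ℕ) : ℝ) * ((2 * x : ℕ) : ℝ))) := by
        intro q hq
        rw [Finset.sum_comm]
        have h1 : ∀ p ∈ F.filter (fun p => p < q), ∑ l ∈ (Ioc (2 * x) (b ^ e)).filter Nat.Prime,
            (if l ∣ (r / b ^ (t - q)) % b ^ (q - p) then 1 / (l : ℝ) else 0) ≤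
            x * Real.log b / (Real.log ((2 * x : ℕ) : ℝ) * ((2 * x : ℕ) : ℝ)) := by
          intro p hp
          rw [mem_filter] at hp
          have hpF := hF p hp.1
          have hqF := hF q hq
          rw [← Finset.sum_filter]
          have hD0 : (r / b ^ (t - q)) % b ^ (q - p) ≠ 0 := by
            intro h0
            apply hnd p hp.1 q hq hp.2
            have := rq (b := b) (r := r) hp.2.le (by omega : q ≤ t)
            rw [h0, add_zero] at this
            exact this
          have hDlt : (r / b ^ (t - q)) % b ^ (q - p) < b ^ (q - p) :=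
            Nat.mod_lt _ (by positivity)
          refine sum_primes (by omega) (Nat.pos_of_ne_zero hD0) ?_
          have h2 : (((r / b ^ (t - q)) % b ^ (q - p) : ℕ) : ℝ) ≤ (b : ℝ) ^ x := by
            have h3 : (r / b ^ (t - q)) % b ^ (q - p) ≤ b ^ x :=
              hDlt.le.trans (Nat.pow_le_pow_right (by omega) (by omega))
            exact_mod_cast h3
          rw [← Real.log_pow]
          exact Real.log_le_log (by exact_mod_cast Nat.pos_of_ne_zero hD0) h2
        refine (Finset.sum_le_sum h1).trans ?_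
        rw [Finset.sum_const, nsmul_eq_mul]
        have h2 : ((F.filter (fun p => p < q)).card : ℝ) ≤ k := by
          rw [hkd]
          exact_mod_cast Finset.card_le_card (Finset.filter_subset _ _)
        exact mul_le_mul_of_nonneg_right h2 (by positivity)
      refine (Finset.sum_le_sum inner).trans ?_
      rw [Finset.sum_const, nsmul_eq_mul, ← hkd]
      have h3 : (k : ℝ) * (k * (x * Real.log b / (Real.log ((2 * x : ℕ) : ℝ) * ((2 * x : ℕ) : ℝ)))) =
          (k : ℝ) ^ 2 / Real.log ((2 * x : ℕ) : ℝ) * (Real.log b / 2) := by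
        have : ((2 * x : ℕ) : ℝ) = 2 * x := by push_cast; rfl
        generalize Real.log ((2 * x : ℕ) : ℝ) = w at hl2x0 ⊢
        rw [this]
        field_simp
      rw [h3]
      have h4 : (k : ℝ) ^ 2 / Real.log ((2 * x : ℕ) : ℝ) ≤ 1 := by
        rw [div_le_one hl2x0]
        linarith
      nlinarith)
  rw [hAcard]
  refine hmain.trans ?_
  have hbk : Real.exp (Real.log b) ≤ (b : ℝ) ^ k := by
    rw [Real.exp_log (by linarith)]
    exact le_self_pow₀ (by linarith) (by omega)
  have hfrac : (k : ℝ) * Real.log ((2 * x : ℕ) : ℝ) / Real.log ((b ^ e : ℕ) : ℝ) ≤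
      32 / Real.log b * k * (Real.log x / x) := by
    rw [hlN, div_le_iff₀ (by nlinarith)]
    have h1 : 32 / Real.log b * k * (Real.log x / x) * (e * Real.log b) =
        k * (2 * Real.log x) * (16 * e / x) := by
      field_simp
      ring
    rw [h1]
    have h2 : 1 ≤ 16 * (e : ℝ) / x := by
      rw [le_div_iff₀ (by linarith)]
      linarith
    calc (k : ℝ) * Real.log ((2 * x : ℕ) : ℝ) ≤ k * (2 * Real.log x) * 1 := by
          rw [mul_one]
          gcongr
      _ ≤ k * (2 * Real.log x) * (16 * e / x) := by gcongr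
  have hfr0 : 0 ≤ (k : ℝ) * Real.log ((2 * x : ℕ) : ℝ) / Real.log ((b ^ e : ℕ) : ℝ) := by
    rw [hlN]
    positivity
  calc C ^ k * Real.exp (Real.log b) *
        (k * Real.log ((2 * x : ℕ) : ℝ) / Real.log ((b ^ e : ℕ) : ℝ)) ^ k * ((b ^ e : ℕ) : ℝ)
      ≤ C ^ k * (b : ℝ) ^ k * (32 / Real.log b * k * (Real.log x / x)) ^ k * ((b ^ e : ℕ) : ℝ) := by
        gcongr
    _ = (32 * C * b / Real.log b * k * (Real.log x / x)) ^ k * (b : ℝ) ^ e := by
        rw [← mul_pow, ← mul_pow]
        push_cast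
        congr 2
        ring

/-- TU -/
theorem tu (h : S_SV) : S_TU := by
  classical
  intro b hb
  obtain ⟨C, hC, hSV⟩ := h
  have hbR : (2 : ℝ) ≤ b := by exact_mod_cast hb
  have hlb : 0 < Real.log b := Real.log_pos (by linarith)
  have hlbb : Real.log b ≤ b := (Real.log_le_sub_one_of_pos (by linarith)).trans (by linarith)
  -- the logarithm is small
  have h1 : (fun x : ℝ => Real.log x ^ 2) =o[Filter.atTop] fun x : ℝ => x :=
    Real.isLittleO_pow_log_id_atTop
  have h2 := h1.bound (c := Real.log b / (32 * C)) (by positivity)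
  obtain ⟨x1, hx1⟩ := Filter.eventually_atTop.1 ((tendsto_natCast_atTop_atTop (R := ℝ)).eventually h2)
  refine ⟨32 * C * b / Real.log b, ?_, x1 + b + 16, fun x hx F hF hk p1 hp1 hmin z hz t ht r _ hnd
    j hj => ?_⟩
  · rw [le_div_iff₀ hlb]
    nlinarith
  have hxl : 2 * C * Real.log x ^ 2 ≤ x * Real.log b / 16 := by
    have h3 := hx1 x (by omega)
    rw [Real.norm_eq_abs, Real.norm_eq_abs, abs_of_nonneg (by positivity : 0 ≤ Real.log (x : ℝ) ^ 2),
      abs_of_nonneg (Nat.cast_nonneg (α := ℝ) x)] at h3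
    calc 2 * C * Real.log x ^ 2 ≤ 2 * C * (Real.log b / (32 * C) * x) := by gcongr
      _ = x * Real.log b / 16 := by
        field_simp
        ring
  obtain ⟨W, hW⟩ : ∃ W, W = p1 - z := ⟨_, rfl⟩
  obtain ⟨e, he⟩ : ∃ e, e = W / 8 := ⟨_, rfl⟩
  have heW : e ≤ W := by omega
  have hbe : 0 < b ^ e := by positivity
  obtain ⟨bd, hbd⟩ : ∃ bd, bd = (32 * C * b / Real.log b * F.card * (Real.log x / x)) ^ F.card :=
    ⟨_, rfl⟩
  have hsub : ∀ i : ℕ, (((Ico (j * b ^ W + i * b ^ e) (j * b ^ W + i * b ^ e + b ^ e)).filter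
      (Gd F b t p1 x r)).card : ℝ) ≤ bd * (b : ℝ) ^ e := by
    intro i
    have h3 := sub hb hC hSV (by omega : b + 16 ≤ x) hxl hF hk hp1 hmin hz ht hnd
      (s := j * b ^ W + i * b ^ e) (by
        rw [← hW]
        calc b ^ W = 1 * b ^ W := (one_mul _).symm
          _ ≤ j * b ^ W := Nat.mul_le_mul_right _ hj
          _ ≤ _ := Nat.le_add_right _ _)
    rw [← hW, ← he, ← hbd] at h3
    exact h3
  have hcov : (cell b z p1 j).filter (Gd F b t p1 x r) ⊆ (range (b ^ (W - e))).biUnion (fun i =>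
      (Ico (j * b ^ W + i * b ^ e) (j * b ^ W + i * b ^ e + b ^ e)).filter (Gd F b t p1 x r)) := by
    intro m hm
    unfold cell at hm
    rw [mem_filter, mem_Ico, ← hW] at hm
    rw [mem_biUnion]
    have h3 : b ^ W = b ^ (W - e) * b ^ e := by
      rw [← pow_add]
      congr 1
      omega
    have h4 : m - j * b ^ W < b ^ (W - e) * b ^ e := by
      have : (j + 1) * b ^ W = j * b ^ W + b ^ W := by ring
      rw [← h3]
      omega
    refine ⟨(m - j * b ^ W) / b ^ e, ?_, ?_⟩
    · rw [mem_range]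
      exact (Nat.div_lt_iff_lt_mul hbe).2 h4
    · rw [mem_filter, mem_Ico]
      refine ⟨?_, hm.2⟩
      have h5 := Nat.div_add_mod (m - j * b ^ W) (b ^ e)
      have h6 := Nat.mod_lt (m - j * b ^ W) hbe
      have h7 : (m - j * b ^ W) / b ^ e * b ^ e = b ^ e * ((m - j * b ^ W) / b ^ e) := mul_comm _ _
      rw [h7]
      have h8 := hm.1.1
      generalize b ^ e * ((m - j * b ^ W) / b ^ e) = v at h5 ⊢
      generalize (m - j * b ^ W) % b ^ e = v' at h5 h6
      generalize j * b ^ W = u at h5 h8 ⊢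
      generalize b ^ e = B at h6 ⊢
      omega
  have hfin : (((cell b z p1 j).filter (Gd F b t p1 x r)).card : ℝ) ≤ bd * (b : ℝ) ^ W := by
    calc (((cell b z p1 j).filter (Gd F b t p1 x r)).card : ℝ)
        ≤ ((∑ i ∈ range (b ^ (W - e)),
          ((Ico (j * b ^ W + i * b ^ e) (j * b ^ W + i * b ^ e + b ^ e)).filter
            (Gd F b t p1 x r)).card : ℕ) : ℝ) := by
          exact_mod_cast (Finset.card_le_card hcov).trans Finset.card_biUnion_le
      _ ≤ ∑ _i ∈ range (b ^ (W - e)), bd * (b : ℝ) ^ e := by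
          rw [Nat.cast_sum]
          exact Finset.sum_le_sum fun i _ => hsub i
      _ = bd * (b : ℝ) ^ W := by
          rw [Finset.sum_const, Finset.card_range, nsmul_eq_mul]
          push_cast
          have : (b : ℝ) ^ W = (b : ℝ) ^ (W - e) * (b : ℝ) ^ e := by
            rw [← pow_add]
            congr 1
            omega
          rw [this]
          ring
  rw [hbd, hW] at hfin
  refine le_trans (le_of_eq ?_) hfin
  congr 2
  ext m
  rw [mem_filter, mem_filter]
  rfl

end Pool.Agent.N99.OW
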